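import Pool.Agent.W601.RP.Stm2

/-! Project RP: reduction of coefficients. -/

set_option autoImplicit false

open scoped Classical
open Filter Topology

namespace Pool.Agent.W135.RP

open Pool.Agent.W601.RP

/-- the reduced representative -/
def rr (n : ℕ) (a : ℤ) : ℤ := if 2 * (a % n) ≤ n then a % n else a % n - n

lemma rr_spec {n : ℕ} (hn : 0 < n) (a : ℤ) :
    (-(n : ℤ) < 2 * rr n a ∧ 2 * rr n a ≤ n) ∧ ∃ z : ℤ, a = rr n a + z * n := by
  have hn' : (0 : ℤ) < n := by exact_mod_cast hn
  have h1 := Int.emod_nonneg a hn'.ne'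
  have h2 := Int.emod_lt_of_pos a hn'
  have h3 := Int.emod_add_mul_ediv a n
  unfold rr
  split_ifs with h
  · refine ⟨⟨by linarith, h⟩, a / n, ?_⟩
    linarith [mul_comm (n : ℤ) (a / n)]
  · refine ⟨⟨by linarith, by linarith⟩, a / n + 1, ?_⟩
    have h4 := mul_comm (n : ℤ) (a / n)
    rw [add_mul, one_mul]
    linarith

lemma rr_zero (n : ℕ) : rr n 0 = 0 := by
  unfold rr
  simp

lemma N_pos (t : ℕ) : 0 < N t := by
  unfold N
  have := Nat.factorial_pos (t + 1)
  omega

theorem red : S_NULL → S_RED := by
  rintro ⟨-, hN⟩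
  refine ⟨?_, ?_, ?_, ?_⟩
  · intro k
    refine ⟨Finsupp.onFinset k.support (fun t => rr (N t) (k t)) ?_, ?_, ?_⟩
    · intro t ht
      rw [Finsupp.mem_support_iff]
      intro h0
      apply ht
      rw [h0, rr_zero]
    · intro t
      exact (rr_spec (N_pos t) (k t)).1
    · intro h hh
      have h2 : pr (Finsupp.onFinset k.support (fun t => rr (N t) (k t)) (by
          intro t ht
          rw [Finsupp.mem_support_iff]
          intro h0
          apply ht
          rw [h0, rr_zero])) h = ∑ t ∈ k.support, rr (N t) (k t) • h t := by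
        unfold pr
        rw [Finsupp.sum_of_support_subset (s := k.support) _ Finsupp.support_onFinset_subset _
          (fun t _ => zero_smul ℤ (h t))]
        rfl
      rw [h2]
      unfold pr Finsupp.sum
      refine Finset.sum_congr rfl fun t _ => ?_
      obtain ⟨z, hz⟩ := (rr_spec (N_pos t) (k t)).2
      have h3 : k t • h t = (rr (N t) (k t) + z * (N t : ℤ)) • h t := by rw [← hz]
      show k t • h t = rr (N t) (k t) • h t
      rw [h3, add_smul, mul_smul, natCast_zsmul, hN h hh t, smul_zero, add_zero]
  · intro k k' h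
    unfold pr
    exact Finsupp.sum_add_index' (fun t => zero_smul ℤ (h t)) (fun t a b => add_smul a b (h t))
  · intro k h h'
    unfold pr
    rw [← Finsupp.sum_add]
    refine Finsupp.sum_congr fun t _ => ?_
    rw [Pi.add_apply, smul_add]
  · intro k h η hη
    unfold pr Finsupp.sum
    refine (norm_sum_le _ _).trans ?_
    rw [Finset.sum_mul]
    refine Finset.sum_le_sum fun t ht => ?_
    refine (norm_zsmul_le _ _).trans ?_
    rw [Int.norm_eq_abs]
    exact mul_le_mul_of_nonneg_left (hη t ht) (abs_nonneg _)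

end Pool.Agent.W135.RP
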